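import Pool.Agent.Y714.KE.BasB

set_option autoImplicit false
set_option linter.unusedSectionVars false
set_option linter.unusedVariables false

/-! Etale algebras: the partition into cells. -/

namespace Pool.Agent.Y799.KE

open Pool.Agent.Y714.KE
open Pool.Agent.Y714.KF (FI sp ct nm pm ext br gl ubas qf bk el sg bf)
open NumberField FractionalIdeal Module Finset
open scoped nonZeroDivisors

variable {s : Type} [Fintype s] [DecidableEq s] {K : s → Type} [∀ i, Field (K i)]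
  [∀ i, NumberField (K i)]

/-- the total size of the cell of the index `k` -/
theorem tt_yy (i₀ : s) (k : s → ℤ) {t : ℝ} (ht : 0 < t) :
    tt (K := K) (yy (fun i => (finrank ℚ (K i) : ℝ)) i₀ k t) = t := by
  have hw : (finrank ℚ (K i₀) : ℝ) ≠ 0 := by
    have := (finrank_pos (R := ℚ) (M := K i₀)).ne'
    exact_mod_cast this
  have h1 : ∑ i, (finrank ℚ (K i) : ℝ) * yy (fun i => (finrank ℚ (K i) : ℝ)) i₀ k t i =
      (1 / 2) * Real.log t := by
    rw [← Finset.add_sum_erase _ _ (Finset.mem_univ i₀)]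
    have h2 : ∀ i ∈ univ.erase i₀, (finrank ℚ (K i) : ℝ) *
        yy (fun i => (finrank ℚ (K i) : ℝ)) i₀ k t i = (finrank ℚ (K i) : ℝ) * k i := by
      intro i hi
      rw [yy, if_neg (Finset.ne_of_mem_erase hi)]
    rw [Finset.sum_congr rfl h2, yy, if_pos rfl, mul_div_cancel₀ _ hw]
    ring
  rw [tt, h1]
  rw [show 2 * ((1 / 2) * Real.log t) = Real.log t by ring, Real.exp_log ht]

open Classical in
/-- the index of the cell of a lattice -/
noncomputable def kk (κ : Ux K → ℝ) (i₀ : s) (I : FA K) (t : ℝ) (M : Submodule ℤ (Al K)) :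
    s → ℤ := fun i =>
  if h : ∃ P : Al K × Al K, M = LT P ∧ (∀ i, cn P i ≤ I i) ∧ ND P ∧ NZ κ (vc P) ∧
    pm (vc P) ≤ t then (if i = i₀ then 0 else ⌊ui (vc h.choose) i⌋) else 0

theorem kk_eq (hodd : Odd (dg K)) (hn : 2 ≤ dg K) {κ : Ux K → ℝ} {i₀ : s} {I : FA K} {t : ℝ}
    {P : Al K × Al K} (h1 : ∀ i, cn P i ≤ I i) (h2 : ND P) (h3 : NZ κ (vc P))
    (h4 : pm (vc P) ≤ t) (i : s) :
    kk κ i₀ I t (LT P) i = if i = i₀ then 0 else ⌊ui (vc P) i⌋ := by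
  have h : ∃ Q : Al K × Al K, LT P = LT Q ∧ (∀ i, cn Q i ≤ I i) ∧ ND Q ∧ NZ κ (vc Q) ∧
    pm (vc Q) ≤ t := ⟨P, rfl, h1, h2, h3, h4⟩
  unfold kk
  rw [dif_pos h]
  have h5 := LT_inv hodd hn h2 h.choose_spec.1
  rw [h5.2.2.2.1]

theorem mem_SY_iff (hodd : Odd (dg K)) (hn : 2 ≤ dg K) {κ : Ux K → ℝ} {i₀ : s} {I : FA K} {t : ℝ}
    (ht : 0 < t) {k : s → ℤ} (hk : k i₀ = 0) (M : Submodule ℤ (Al K)) :
    M ∈ SY κ i₀ I (yy (fun i => (finrank ℚ (K i) : ℝ)) i₀ k t) ↔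
      M ∈ SA κ I t ∧ kk κ i₀ I t M = k := by
  constructor
  · rintro ⟨P, rfl, h1, h2, h3, h4, h5⟩
    rw [tt_yy i₀ k ht] at h5
    refine ⟨⟨P, rfl, h1, h2, h3, h5⟩, ?_⟩
    funext i
    rw [kk_eq hodd hn h1 h2 h3 h5]
    by_cases hi : i = i₀
    · rw [if_pos hi, hi, hk]
    · rw [if_neg hi]
      have h6 := h4 i hi
      rw [yy, if_neg hi] at h6
      exact Int.floor_eq_iff.2 h6
  · rintro ⟨⟨P, rfl, h1, h2, h3, h5⟩, h6⟩
    refine ⟨P, rfl, h1, h2, h3, ?_, ?_⟩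
    · intro i hi
      have h7 := congrFun h6 i
      rw [kk_eq hodd hn h1 h2 h3 h5, if_neg hi] at h7
      rw [yy, if_neg hi]
      exact Int.floor_eq_iff.1 h7
    · rw [tt_yy i₀ k ht]
      exact h5

theorem kk_zero (hodd : Odd (dg K)) (hn : 2 ≤ dg K) {κ : Ux K → ℝ} {i₀ : s} {I : FA K} {t : ℝ}
    {M : Submodule ℤ (Al K)} (hM : M ∈ SA κ I t) : kk κ i₀ I t M i₀ = 0 := by
  obtain ⟨P, rfl, h1, h2, h3, h4⟩ := hM
  rw [kk_eq hodd hn h1 h2 h3 h4, if_pos rfl]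

/-- PAR: the partition into cells -/
theorem par : S_PAR K := by
  classical
  intro hodd hn κ i₀ I t ht hfin Pr
  have hn2 : 2 ≤ dg K := by omega
  have hA : {M ∈ SA κ I t | Pr M}.Finite := hfin.subset fun M hM => hM.1
  let f : Submodule ℤ (Al K) → (s → ℤ) := kk κ i₀ I t
  have h1 : ∀ k : s → ℤ, k i₀ = 0 →
      {M ∈ SY κ i₀ I (yy (fun i => (finrank ℚ (K i) : ℝ)) i₀ k t) | Pr M} =
        ((hA.toFinset.filter fun M => f M = k : Finset _) : Set (Submodule ℤ (Al K))) := by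
    intro k hk
    ext M
    simp only [Set.mem_ofPred_eq, Finset.coe_filter, Set.Finite.mem_toFinset]
    rw [mem_SY_iff hodd hn2 ht hk]
    constructor
    · rintro ⟨⟨h2, h3⟩, h4⟩
      exact ⟨⟨h2, h4⟩, h3⟩
    · rintro ⟨⟨h2, h4⟩, h3⟩
      exact ⟨⟨h2, h3⟩, h4⟩
  have h2 : ∀ k : s → ℤ, k i₀ = 0 →
      ({M ∈ SY κ i₀ I (yy (fun i => (finrank ℚ (K i) : ℝ)) i₀ k t) | Pr M}.ncard : ℝ) =
        ((hA.toFinset.filter fun M => f M = k).card : ℝ) := by
    intro k hk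
    rw [h1 k hk, Set.ncard_coe_finset]
  rw [finsum_mem_eq_sum_of_subset (t := hA.toFinset.image f)]
  · have h3 : ∀ k ∈ hA.toFinset.image f,
        ({M ∈ SY κ i₀ I (yy (fun i => (finrank ℚ (K i) : ℝ)) i₀ k t) | Pr M}.ncard : ℝ) =
          ((hA.toFinset.filter fun M => f M = k).card : ℝ) := by
      intro k hk
      obtain ⟨M, hM, rfl⟩ := Finset.mem_image.1 hk
      rw [Set.Finite.mem_toFinset] at hM
      exact h2 _ (kk_zero hodd hn2 hM.1)
    rw [Finset.sum_congr rfl h3, ← Nat.cast_sum, ← Finset.card_eq_sum_card_image,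
      Set.ncard_eq_toFinset_card _ hA]
  · rintro k ⟨hk, hk2⟩
    rw [Function.mem_support, h2 k hk] at hk2
    have h3 : (hA.toFinset.filter fun M => f M = k).card ≠ 0 := by exact_mod_cast hk2
    obtain ⟨M, hM⟩ := Finset.card_ne_zero.1 h3
    rw [Finset.mem_filter] at hM
    rw [Finset.mem_coe, Finset.mem_image]
    exact ⟨M, hM.1, hM.2⟩
  · intro k hk
    rw [Finset.mem_coe, Finset.mem_image] at hk
    obtain ⟨M, hM, rfl⟩ := hk
    rw [Set.Finite.mem_toFinset] at hM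
    exact kk_zero hodd hn2 hM.1

end Pool.Agent.Y799.KE
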